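import Pool.Agent.Y215.PO.Stm

/-!
# PO-LOG: closure properties of definable predicates (helper259, for project PO of helper215)
-/

set_option autoImplicit false

open FirstOrder FirstOrder.Language

namespace Pool.Agent.Y259.PO

section

open Pool.Agent.Y215.PO

variable {M : Type} [Language.order.Structure M]

theorem df_le [PartialOrder M] [Language.order.OrderedStructure M] (i j : ℕ) :
    DP M (fun v : ℕ → M => v i ≤ v j) := by
  have h : (∅ : Set M).Definable Language.order {v : ℕ → M | v i ≤ v j} := by
    rw [Set.empty_definable_iff]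
    refine ⟨Term.le (Term.var (Sum.inl i)) (Term.var (Sum.inl j)), ?_⟩
    ext v
    simp [Formula.Realize, Term.realize_le]
  exact h.mono (Set.empty_subset _)

theorem df_eqc (i : ℕ) (c : M) : DP M (fun v : ℕ → M => v i = c) := by
  have h := (Set.Definable.singleton_of_mem Language.order (Set.mem_univ c)).preimage_comp
    (fun _ : Fin 1 => i)
  exact h

theorem df_and {R R' : (ℕ → M) → Prop} (h : DP M R) (h' : DP M R') : DP M (fun v => R v ∧ R' v) :=
  Set.Definable.inter h h'

theorem df_or {R R' : (ℕ → M) → Prop} (h : DP M R) (h' : DP M R') : DP M (fun v => R v ∨ R' v) :=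
  Set.Definable.union h h'

theorem df_not {R : (ℕ → M) → Prop} (h : DP M R) : DP M (fun v => ¬ R v) :=
  Set.Definable.compl h

theorem df_sub {R : (ℕ → M) → Prop} (h : DP M R) (s : ℕ → ℕ) : DP M (fun v => R (v ∘ s)) :=
  Set.Definable.preimage_comp s h

theorem df_sub' {R : (ℕ → M) → Prop} (h : DP M R) (s : ℕ → ℕ) : DP M (fun v => R (fun n => v (s n))) :=
  Set.Definable.preimage_comp s h

theorem df_ex {R : (ℕ → M) → Prop} (h : DP M R) (i : ℕ) :
    DP M (fun v => ∃ a, R (Function.update v i a)) := by
  classical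
  have h1 := (Set.Definable.preimage_comp
    (fun j : ℕ => if j = i then (Sum.inr () : ℕ ⊕ Unit) else Sum.inl j) h).exists_of_finite
  unfold DP
  convert h1 using 1
  ext v
  have e : ∀ u : Unit → M, (Sum.elim v u ∘ fun j : ℕ => if j = i then (Sum.inr () : ℕ ⊕ Unit)
      else Sum.inl j) = Function.update v i (u ()) := by
    intro u
    funext j
    by_cases hj : j = i
    · subst hj
      simp
    · simp [hj]
  constructor
  · rintro ⟨a, ha⟩
    refine ⟨fun _ => a, ?_⟩
    show R (Sum.elim v (fun _ => a) ∘ _)
    rw [e]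
    exact ha
  · rintro ⟨u, hu⟩
    refine ⟨u (), ?_⟩
    have hu' : R (Sum.elim v u ∘ fun j : ℕ => if j = i then (Sum.inr () : ℕ ⊕ Unit)
      else Sum.inl j) := hu
    rwa [e] at hu'

theorem df_all {R : (ℕ → M) → Prop} (h : DP M R) (i : ℕ) :
    DP M (fun v => ∀ a, R (Function.update v i a)) := by
  have h1 := df_not (df_ex (df_not h) i)
  simpa using h1

theorem df_cle [PartialOrder M] [Language.order.OrderedStructure M] (i : ℕ) (c : M) :
    DP M (fun v : ℕ → M => v i ≤ c) := by
  have h1 := df_ex (df_and (df_le (M := M) i (i + 1)) (df_eqc (i + 1) c)) (i + 1)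
  simpa using h1

theorem df_lec [PartialOrder M] [Language.order.OrderedStructure M] (i : ℕ) (c : M) :
    DP M (fun v : ℕ → M => c ≤ v i) := by
  have h1 := df_ex (df_and (df_le (M := M) (i + 1) i) (df_eqc (i + 1) c)) (i + 1)
  simpa using h1

theorem df_fin {f : M → M} (h : DP M (fun v : ℕ → M => f (v 0) = v 1)) :
    (Set.univ : Set M).Definable Language.order {v : Fin 2 → M | f (v 0) = v 1} := by
  exact Set.Definable.preimage_comp (fun n : ℕ => if n = 0 then (0 : Fin 2) else 1) h

end

theorem t : Pool.Agent.Y215.PO.S_LOG := by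
  intro M _ _ _
  exact ⟨fun i j => df_le i j, fun i c => df_cle i c, fun i c => df_lec i c,
    fun R R' h h' => df_and h h', fun R h => df_not h, fun R i h => df_ex h i,
    fun R s h => df_sub' h s, fun f h => df_fin h⟩

end Pool.Agent.Y259.PO
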